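import Pool.Agent.H95.NV.Targets3

/-!
# PFX: the proportion as a function of the discriminant (helper54)
-/

set_option autoImplicit false

open NumberField
open scoped Real nonZeroDivisors

namespace Pool.Agent.H54.NV

open Pool.Agent.H95.NV
open Pool.Agent.H89.NV (CK TrK prp)

section

variable {k : Type} [Field k] [NumberField k] {D : 𝓞 k} {K : Type} [Field K] [Algebra k K]

theorem re_add (h : CK D K) (a b : k) :
    h.re (algebraMap k K a + algebraMap k K b * h.s) = a := by
  rw [map_add, Algebra.algebraMap_eq_smul_one, Algebra.algebraMap_eq_smul_one, smul_mul_assoc,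
    one_mul, map_smul, map_smul, h.re1, h.res]
  simp

theorem im_add (h : CK D K) (a b : k) :
    h.im (algebraMap k K a + algebraMap k K b * h.s) = b := by
  rw [map_add, Algebra.algebraMap_eq_smul_one, Algebra.algebraMap_eq_smul_one, smul_mul_assoc,
    one_mul, map_smul, map_smul, h.im1, h.ims]
  simp

theorem mul_eq (h : CK D K) (x y : K) :
    x * y = algebraMap k K (h.re x * h.re y - h.im x * h.im y * (D : k)) +
      algebraMap k K (h.re x * h.im y + h.im x * h.re y) * h.s := by
  have hx := h.eq x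
  have hy := h.eq y
  have hs := h.sq
  calc x * y = (algebraMap k K (h.re x) + algebraMap k K (h.im x) * h.s) *
        (algebraMap k K (h.re y) + algebraMap k K (h.im y) * h.s) := by rw [← hx, ← hy]
    _ = algebraMap k K (h.re x) * algebraMap k K (h.re y) +
        algebraMap k K (h.im x) * algebraMap k K (h.im y) * (h.s * h.s) +
        (algebraMap k K (h.re x) * algebraMap k K (h.im y) +
          algebraMap k K (h.im x) * algebraMap k K (h.re y)) * h.s := by ring
    _ = _ := by
      rw [hs]
      simp only [map_sub, map_add, map_mul]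
      ring

theorem re_mul (h : CK D K) (x y : K) :
    h.re (x * y) = h.re x * h.re y - h.im x * h.im y * (D : k) := by
  have := congrArg h.re (mul_eq h x y)
  rwa [re_add] at this

theorem im_mul (h : CK D K) (x y : K) :
    h.im (x * y) = h.re x * h.im y + h.im x * h.re y := by
  have := congrArg h.im (mul_eq h x y)
  rwa [im_add] at this

variable {K' : Type} [Field K'] [Algebra k K']

/-- the homomorphism of two fields of the same discriminant -/
noncomputable def hm (h : CK D K) (h' : CK D K') : K →ₐ[k] K' :=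
  AlgHom.ofLinearMap
    { toFun := fun x => algebraMap k K' (h.re x) + algebraMap k K' (h.im x) * h'.s
      map_add' := fun x y => by
        rw [map_add, map_add, map_add, map_add]
        ring
      map_smul' := fun c x => by
        rw [LinearMap.map_smul h.re, LinearMap.map_smul h.im, smul_eq_mul, smul_eq_mul, map_mul,
          map_mul, RingHom.id_apply, Algebra.smul_def]
        ring }
    (by
      change algebraMap k K' (h.re 1) + algebraMap k K' (h.im 1) * h'.s = 1
      rw [h.re1, h.im1, map_one, map_zero, zero_mul, add_zero])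
    (fun x y => by
      change algebraMap k K' (h.re (x * y)) + algebraMap k K' (h.im (x * y)) * h'.s =
        (algebraMap k K' (h.re x) + algebraMap k K' (h.im x) * h'.s) *
        (algebraMap k K' (h.re y) + algebraMap k K' (h.im y) * h'.s)
      rw [re_mul, im_mul]
      have hs := h'.sq
      have e : (algebraMap k K' (h.re x) + algebraMap k K' (h.im x) * h'.s) *
          (algebraMap k K' (h.re y) + algebraMap k K' (h.im y) * h'.s) =
          algebraMap k K' (h.re x) * algebraMap k K' (h.re y) +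
          algebraMap k K' (h.im x) * algebraMap k K' (h.im y) * (h'.s * h'.s) +
          (algebraMap k K' (h.re x) * algebraMap k K' (h.im y) +
          algebraMap k K' (h.im x) * algebraMap k K' (h.re y)) * h'.s := by ring
      rw [e, hs]
      simp only [map_sub, map_add, map_mul]
      ring)

theorem hm_bij (h : CK D K) (h' : CK D K') : Function.Bijective (hm h h') := by
  refine ⟨(hm h h').toRingHom.injective, fun y => ?_⟩
  refine ⟨algebraMap k K (h'.re y) + algebraMap k K (h'.im y) * h.s, ?_⟩
  change algebraMap k K' (h.re (algebraMap k K (h'.re y) + algebraMap k K (h'.im y) * h.s)) +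
    algebraMap k K' (h.im (algebraMap k K (h'.re y) + algebraMap k K (h'.im y) * h.s)) * h'.s = y
  rw [re_add, im_add]
  exact (h'.eq y).symm

end

theorem div_bds (p q : ℕ) (h : p ≤ q) : (0 : ℝ) ≤ (p : ℝ) / q ∧ (p : ℝ) / q ≤ 1 :=
  ⟨by positivity, div_le_one_of_le₀ (by exact_mod_cast h) (by positivity)⟩

theorem pf_PFX (hISO : T_ISO) (hCHC : T_CHC) : T_PFX := by
  classical
  intro k _ _ _
  have hb : ∀ (K : Type) [Field K] [NumberField K] [Algebra k K],
      0 ≤ prp k K ∧ prp k K ≤ 1 ∧ 0 ≤ rcp k K ∧ rcp k K ≤ 1 := by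
    intro K _ _ _
    have : Finite (ClassGroup (𝓞 K) →* ℂˣ) := (hCHC k K).2.1
    have h1 : Nat.card {ψ : ClassGroup (𝓞 K) →* ℂˣ // TrK k K ψ ∧ Pool.Agent.H31.CN.NV K ψ} ≤
        Nat.card {ψ : ClassGroup (𝓞 K) →* ℂˣ // TrK k K ψ} :=
      Nat.card_le_card_of_injective (fun x => ⟨x.1, x.2.1⟩) fun x y hxy =>
        Subtype.ext (Subtype.mk.inj hxy)
    have h2 : Nat.card {ψ : ClassGroup (𝓞 K) →* ℂˣ // TrK k K ψ ∧ ψ * ψ = 1} ≤
        Nat.card {ψ : ClassGroup (𝓞 K) →* ℂˣ // TrK k K ψ} :=
      Nat.card_le_card_of_injective (fun x => ⟨x.1, x.2.1⟩) fun x y hxy =>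
        Subtype.ext (Subtype.mk.inj hxy)
    have h3 := div_bds _ _ h1
    have h4 := div_bds _ _ h2
    exact ⟨h3.1, h3.2, h4.1, h4.2⟩
  have hex : ∀ D : 𝓞 k, ∃ xy : ℝ × ℝ, (0 ≤ xy.1 ∧ xy.1 ≤ 1 ∧ 0 ≤ xy.2 ∧ xy.2 ≤ 1) ∧
      ∀ (K : Type) [Field K] [NumberField K] [Algebra k K] (_ : CK D K),
        prp k K = xy.1 ∧ rcp k K = xy.2 := by
    intro D
    by_cases h : ∃ (K : Type) (_ : Field K) (_ : NumberField K) (_ : Algebra k K),
        Nonempty (CK D K)
    · obtain ⟨K, _, _, _, ⟨hK⟩⟩ := h
      refine ⟨(prp k K, rcp k K), hb K, ?_⟩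
      intro K' _ _ _ hK'
      obtain ⟨h1, h2, -, -⟩ := hISO k K' K (AlgEquiv.ofBijective (hm hK' hK) (hm_bij hK' hK))
      exact ⟨h1, h2⟩
    · refine ⟨(0, 0), ⟨le_refl _, zero_le_one, le_refl _, zero_le_one⟩, ?_⟩
      intro K i1 i2 i3 hK
      exact absurd ⟨K, i1, i2, i3, ⟨hK⟩⟩ h
  choose xy h1 h2 using hex
  exact ⟨fun D => (xy D).1, fun D => (xy D).2, fun D => h1 D, fun D K _ _ _ hK => h2 D K hK⟩

end Pool.Agent.H54.NV
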